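import Pool.Agent.TH729.BQ.Bi
import Pool.Agent.TH729.BQ.Mat
import Pool.Agent.W279.Tri.LocComp

/-!
# Mazur's question for the hypersurfaces of bidegree (2,2) (helper729)

`K` is a number field, `L` is a complete nontrivially normed field with a homomorphism
`σ : K →+* L` of dense range (so `L` is the completion of `K` at a place), and `X` is the
hypersurface of bidegree `(2,2)`

  `T₀² A(Y) + T₀ T₁ B(Y) + T₁² C(Y) = 0`   in   `ℙⁿ⁻¹ × ℙ¹`, `n ≥ 3`,

where `A`, `B`, `C` are linearly independent quadratic forms over `K` such that the generic fibre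
of the projection to `ℙ¹` is a smooth quadric.  Then `X` is irreducible; it may be singular.  The
ideals of the local Zariski closures `Z_x` of its `K`-rational points, at all its `L`-valued
points, take only finitely many values.

Idea of the proof.  A `K`-rational point `P` on a smooth fibre moves in its fibre (chords), and
then to the other fibre through its first coordinate.  Two steps of this kind bring it back
close to `P`, but to infinitely many different fibres, each of which is a quadric with a rational
point close to `P`; so a polynomial vanishing at the rational points close to `P` vanishes on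
infinitely many fibres, and then on `X`.  At the points which are not limits of such points `P`,
the rational points close by lie in one of finitely many singular fibres, and there we use our
theorem for arbitrary quadrics.
-/

set_option autoImplicit false

namespace Pool.Agent.Results.MP_f9f755_nt.BidegreeTwoTwo

open MvPolynomial Matrix

universe u v

/-- **Mazur's question for the hypersurfaces of bidegree (2,2).** -/
theorem result :
    ∀ (K : Type u) [Field K] [NumberField K] (L : Type v) [NontriviallyNormedField L]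
      [CompleteSpace L] (σ : K →+* L), DenseRange σ →
    ∀ (n : ℕ), 3 ≤ n → ∀ (A B C : Matrix (Fin n) (Fin n) K), A.IsSymm → B.IsSymm → C.IsSymm →
      LinearIndependent K ![A, B, C] → (∃ t : K, (t ^ 2 • A + t • B + C).det ≠ 0) →
      {J : Set (MvPolynomial (Fin n ⊕ Fin 2) K) |
        ∃ (x : Fin n → L) (s : Fin 2 → L), x ≠ 0 ∧ s ≠ 0 ∧
          x ⬝ᵥ (s 0 ^ 2 • A.map σ + (s 0 * s 1) • B.map σ + s 1 ^ 2 • C.map σ) *ᵥ x = 0 ∧
          J = {f : MvPolynomial (Fin n ⊕ Fin 2) K |
            ∃ U ∈ nhds x, ∃ V ∈ nhds s, ∀ (Y : Fin n → K) (T : Fin 2 → K), Y ≠ 0 → T ≠ 0 →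
              Y ⬝ᵥ (T 0 ^ 2 • A + (T 0 * T 1) • B + T 1 ^ 2 • C) *ᵥ Y = 0 →
              (∃ c : L, c ≠ 0 ∧ (fun i => c * σ (Y i)) ∈ U) →
              (∃ c : L, c ≠ 0 ∧ (fun i => c * σ (T i)) ∈ V) →
              ∀ a b : K, eval (Sum.elim (a • Y) (b • T)) f = 0}}.Finite := by
  intro K _ _ L _ _ σ hσ n hn A B C hA hB hC hind hdet
  have : CharZero L := charZero_of_injective_ringHom σ.injective
  have : ProperSpace L := Pool.Agent.W279.Tri.properSpace_of_denseRange σ hσ
  obtain ⟨𝓑, h𝓑, hbad⟩ := Pool.Agent.TH729.BQ.matFam_bad hA hB hC hdet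
  refine (Pool.Agent.TH729.BQ.fin_IB σ hσ
    (F := Pool.Agent.TH729.BQ.matFam A B C hA hB hC)
    (Pool.Agent.TH729.BQ.matFam_ind hA hB hC hind) hn h𝓑 hbad).subset ?_
  rintro _ ⟨x, s, hx, hs, -, rfl⟩
  refine ⟨x, s, hx, hs, ?_⟩
  simp only [Pool.Agent.TH729.BQ.IB, Pool.Agent.TH729.BQ.matFam_val]

end Pool.Agent.Results.MP_f9f755_nt.BidegreeTwoTwo
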