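import Pool.Agent.TH178.MZ.Multi

/-!
# Mazur's question for varieties with many rational curves: brackets of vector fields

`K` is a field of characteristic zero (for instance a number field), `L` is a nontrivially normed
field with a homomorphism `σ : K →+* L` of dense range (for instance the completion of `K` at a
place).

(1) A criterion. Let `X ⊆ ℙⁿ` be an irreducible projective variety over `K`, and let `V₁, …, V_m` be
polynomial vector fields on the affine space of the homogeneous coordinates such that through every
`K`-point of the cone over `X` at which `V_i` does not vanish there is a rational curve over `K` in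
the cone with this tangent. If the brackets of these vector fields generate the tangent space of the
cone at all points over all but finitely many `K`-points of `X`, then the local Zariski closures
`Z_x` take only finitely many values.

(2) Double covers `w² = F` of arbitrary products `ℙ^{a₁} × … × ℙ^{a_r}` of projective spaces which
are branched along a divisor `F = 0` of multidegree `(2, …, 2)` (Fano varieties if all `a_i ≥ 1`).
Every local Zariski closure `Z_x` of `X(K)` is `X` or the local Zariski closure at `x` of the set of
the singular `K`-points of `X`. If there are only finitely many singular `K`-points, then the sets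
`Z_x` take only finitely many values.

Idea of the proof.  The polynomials which vanish at all `K`-points of `X` in an open set are
preserved by the vector fields `V_i`, since they vanish at infinitely many points of the rational
curves; so they are preserved by the Lie algebra generated by the `V_i`. Near a point where this Lie
algebra generates the tangent space this forces them to vanish on `X`. On a double cover as in (2)
the sections of `X` by the coordinate lines of the base are conics, with the tangent fields
`∂F/∂x_l ∂_w + 2 w ∂_{x_l}`. They generate the tangent space where `w ≠ 0`, and where `w = 0` their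
brackets `2 (∂F/∂x_k ∂_{x_l} - ∂F/∂x_l ∂_{x_k})` do this unless `X` is singular.
-/

set_option autoImplicit false

namespace Pool.Agent.Results.MP_f9f755_nt.BracketConics

open MvPolynomial Pool.Agent.TH178.MZ

/-- **Mazur's question: a criterion by brackets of vector fields, and double covers of products of
projective spaces branched along divisors of multidegree `(2, …, 2)`.** -/
theorem result (K : Type) [Field K] [CharZero K] (L : Type) [NontriviallyNormedField L]
    (σ : K →+* L) (hσ : DenseRange σ) :
    -- (1) the criterion
    (∀ (n : ℕ) (S : Set (MvPolynomial (Fin (n + 1)) K)),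
      (∀ f ∈ S, ∃ d : ℕ, f.IsHomogeneous d) → (Ideal.span S).radical.IsPrime →
      ∀ d : ℕ, Algebra.trdeg K (MvPolynomial (Fin (n + 1)) K ⧸ (Ideal.span S).radical) = d →
      ∀ (m : ℕ) (V : Fin m → Derivation K (MvPolynomial (Fin (n + 1)) K)
          (MvPolynomial (Fin (n + 1)) K)),
      (∀ i, RationallyIntegrable {y | ∀ g ∈ S, eval y g = 0} (V i)) →
      (∃ E : Finset (Fin (n + 1) → K), ∀ y : Fin (n + 1) → K, y ≠ 0 →
        (∀ g ∈ S, eval y g = 0) → bracketRank V y < d → ∃ e ∈ E, ∃ c : K, y = c • e) →
      {J : Set (MvPolynomial (Fin (n + 1)) K) |
        ∃ x : Fin (n + 1) → L, x ≠ 0 ∧ (∀ g ∈ S, eval₂ σ x g = 0) ∧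
          J = {f : MvPolynomial (Fin (n + 1)) K |
            ∃ U ∈ nhds x, ∀ y : Fin (n + 1) → K, y ≠ 0 → (∀ g ∈ S, eval y g = 0) →
              (∃ c : L, c ≠ 0 ∧ (fun i => c * σ (y i)) ∈ U) →
              ∀ t : K, eval (t • y) f = 0}}.Finite) ∧
    -- (2) double covers of products of projective spaces
    (∀ (r : ℕ) (a : Fin r → ℕ) (F : MvPolynomial (Idx a) K), IsMultiQuadratic F → ¬ IsSquare F →
      (∀ x : Option (Idx a) → L, Proper x →
        multiIdeal σ (cover F) x = coverIdeal F ∨
          multiIdeal σ (cover F) x = multiIdeal σ (singular F) x) ∧
      ((∃ E : Finset (Option (Idx a) → K), ∀ y ∈ singular F, Proper y →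
          ∃ e ∈ E, ∃ t : Fin r → K, (∀ k, t k ≠ 0) ∧ y = scale (weight a) t e) →
        {J : Set (MvPolynomial (Option (Idx a)) K) | ∃ x : Option (Idx a) → L, Proper x ∧
          x none ^ 2 = eval₂ σ (fun l => x (some l)) F ∧
          J = multiIdeal σ (cover F) x}.Finite)) := by
  refine ⟨?_, ?_⟩
  · intro n S hS hp d hd m V hV hE
    obtain ⟨E, hE⟩ := hE
    refine (projective_criterion σ hσ hS hp hd V hV E hE).subset ?_
    rintro J ⟨x, hx, -, rfl⟩
    exact ⟨x, hx, rfl⟩
  · intro r a F hF hsq
    refine ⟨fun x hx => multi_dichotomy σ hσ hF hsq hx, ?_⟩
    rintro ⟨E, hE⟩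
    refine (multi_finite σ hσ hF hsq E hE).subset ?_
    rintro J ⟨x, hx, -, rfl⟩
    exact ⟨x, hx, rfl⟩

end Pool.Agent.Results.MP_f9f755_nt.BracketConics
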