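import Pool.Agent.TH729.CV.Trans

/-!
# Mazur's question for all hypersurfaces of degree at most three (helper729)

`K` is a number field, `L` is a complete nontrivially normed field with a homomorphism
`σ : K →+* L` of dense range (so `L` is the completion of `K` at a place), and `F` is any form of
degree at most three over `K` in `n + 1` variables: singular and reducible hypersurfaces are
allowed.  The ideals of the local Zariski closures `Z_x` of the rational points of the hypersurface
`F = 0`, at all its `L`-valued points `x`, take only finitely many values.
-/

set_option autoImplicit false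

namespace Pool.Agent.Results.MP_f9f755_nt.CubicHypersurfaces

open MvPolynomial

universe u v

/-- **Mazur's question for hypersurfaces of degree at most three.** -/
theorem result :
    ∀ (K : Type u) [Field K] [NumberField K] (L : Type v) [NontriviallyNormedField L]
      [CompleteSpace L] (σ : K →+* L), DenseRange σ →
    ∀ (n d : ℕ) (F : MvPolynomial (Fin (n + 1)) K), F.IsHomogeneous d → d ≤ 3 →
      {J : Set (MvPolynomial (Fin (n + 1)) K) |
        ∃ x : Fin (n + 1) → L, x ≠ 0 ∧ eval₂ σ x F = 0 ∧
          J = {f : MvPolynomial (Fin (n + 1)) K |
            ∃ U ∈ nhds x, ∀ y : Fin (n + 1) → K, y ≠ 0 → eval y F = 0 →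
              (∃ c : L, c ≠ 0 ∧ (fun i => c * σ (y i)) ∈ U) →
              ∀ t : K, eval (t • y) f = 0}}.Finite := by
  intro K _ _ L _ _ σ hσ n d F hF hd
  have : CharZero L := charZero_of_injective_ringHom σ.injective
  have : ProperSpace L := Pool.Agent.W279.Tri.properSpace_of_denseRange σ hσ
  exact Pool.Agent.TH729.CV.fin_ideals σ hσ hF hd

end Pool.Agent.Results.MP_f9f755_nt.CubicHypersurfaces
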