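import Pool.Agent.TH729.CV.Trans2
import Pool.Agent.W279.Tri.LocComp

/-!
# Mazur's question for the intersections of two quadrics (helper729)

`K` is a number field, `L` is a complete nontrivially normed field with a homomorphism
`σ : K →+* L` of dense range (so `L` is the completion of `K` at a place), and `F`, `G` are any two
forms of degree at most two over `K` in `n + 1` variables: no smoothness, irreducibility or
dimension condition is made on the intersection `F = G = 0`.  The ideals of the local Zariski
closures `Z_x` of its rational points, at all its `L`-valued points `x`, take only finitely many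
values.

The proof projects the intersection from a rational point `P` to a cubic hypersurface, and uses the
theorem for cubic hypersurfaces of `CubicHypersurfaces` (library `TH729/CV`).
-/

set_option autoImplicit false

namespace Pool.Agent.Results.MP_f9f755_nt.TwoQuadrics

open MvPolynomial

universe u v

/-- **Mazur's question for the intersections of two quadrics.** -/
theorem result :
    ∀ (K : Type u) [Field K] [NumberField K] (L : Type v) [NontriviallyNormedField L]
      [CompleteSpace L] (σ : K →+* L), DenseRange σ →
    ∀ (n d e : ℕ) (F G : MvPolynomial (Fin (n + 1)) K),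
      F.IsHomogeneous d → d ≤ 2 → G.IsHomogeneous e → e ≤ 2 →
      {J : Set (MvPolynomial (Fin (n + 1)) K) |
        ∃ x : Fin (n + 1) → L, x ≠ 0 ∧ (eval₂ σ x F = 0 ∧ eval₂ σ x G = 0) ∧
          J = {f : MvPolynomial (Fin (n + 1)) K |
            ∃ U ∈ nhds x, ∀ y : Fin (n + 1) → K, y ≠ 0 → (eval y F = 0 ∧ eval y G = 0) →
              (∃ c : L, c ≠ 0 ∧ (fun i => c * σ (y i)) ∈ U) →
              ∀ t : K, eval (t • y) f = 0}}.Finite := by
  intro K _ _ L _ _ σ hσ n d e F G hF hd hG he
  have : CharZero L := charZero_of_injective_ringHom σ.injective
  have : ProperSpace L := Pool.Agent.W279.Tri.properSpace_of_denseRange σ hσ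
  refine (Pool.Agent.TH729.CV.fin_ideals_two σ hσ hF hd hG he).subset ?_
  rintro _ ⟨x, hx, -, rfl⟩
  exact ⟨x, hx, rfl⟩

end Pool.Agent.Results.MP_f9f755_nt.TwoQuadrics
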